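import Pool.Agent.Y826.ZG.Defs3

/-! Project Y826/Z: bilinear sums with the weight `Phi`, `S_BX` from `S_TII`.

The weight is expanded into a Fourier series in `log (m n / X)`, which separates the variables. -/

set_option autoImplicit false

open Finset Filter

namespace Pool.Agent.Y826.ZG.Y674

open Pool.Agent.Y826.Z hiding Cd dl Lc Du SS Soff Hyp Cls
open Pool.Agent.Y826.ZL (Cd dl)
open Pool.Agent (H378R2.Phi)
open Pool.Agent.H378R2 (Phi)
open scoped Real

/-! ### The Fourier series of the weight -/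

lemma bern2 (x : ℝ) : (Polynomial.map (algebraMap ℚ ℝ) (Polynomial.bernoulli 2)).eval x =
    x ^ 2 - x + 1 / 6 := by
  rw [Polynomial.bernoulli]
  simp [sum_range_succ, bernoulli_eq_bernoulli'_of_ne_one, bernoulli'_two, Nat.choose]
  ring

lemma cos_series {x : ℝ} (hx : |x| ≤ 1) :
    HasSum (fun n : ℕ => 1 / (n : ℝ) ^ 2 * Real.cos (2 * π * n * x)) (π ^ 2 * (x ^ 2 - |x| + 1 / 6)) := by
  have h := hasSum_one_div_nat_pow_mul_cos (k := 1) one_ne_zero (x := |x|) ⟨abs_nonneg x, hx⟩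
  have e1 : ∀ n : ℕ, Real.cos (2 * π * n * |x|) = Real.cos (2 * π * n * x) := by
    intro n
    have : 2 * π * n * |x| = |2 * π * n * x| := by
      rw [abs_mul, abs_of_nonneg (by positivity : (0 : ℝ) ≤ 2 * π * n)]
    rw [this, Real.cos_abs]
  simp only [mul_one, e1] at h
  have e2 : (-1 : ℝ) ^ (1 + 1) * (2 * π) ^ 2 / 2 / (Nat.factorial 2 : ℝ) = π ^ 2 := by
    norm_num [Nat.factorial]
    ring
  rw [bern2, sq_abs, e2] at h
  exact h

lemma tent_id (v : ℝ) : |v / 8| - 2 * |v / 8 - 1 / 16| + |v / 8 - 1 / 8| =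
    max 0 (1 / 2 - |v - 1 / 2|) / 4 := by
  rcases le_total v 0 with h | h
  · rw [abs_of_nonpos (by linarith : v / 8 ≤ 0), abs_of_nonpos (by linarith : v / 8 - 1 / 16 ≤ 0),
      abs_of_nonpos (by linarith : v / 8 - 1 / 8 ≤ 0), abs_of_nonpos (by linarith : v - 1 / 2 ≤ 0),
      max_eq_left (by linarith)]
    ring
  · rcases le_total v (1 / 2) with h1 | h1
    · rw [abs_of_nonneg (by linarith : 0 ≤ v / 8), abs_of_nonpos (by linarith : v / 8 - 1 / 16 ≤ 0),
        abs_of_nonpos (by linarith : v / 8 - 1 / 8 ≤ 0), abs_of_nonpos (by linarith : v - 1 / 2 ≤ 0),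
        max_eq_right (by linarith)]
      ring
    · rcases le_total v 1 with h2 | h2
      · rw [abs_of_nonneg (by linarith : 0 ≤ v / 8), abs_of_nonneg (by linarith : 0 ≤ v / 8 - 1 / 16),
          abs_of_nonpos (by linarith : v / 8 - 1 / 8 ≤ 0), abs_of_nonneg (by linarith : 0 ≤ v - 1 / 2),
          max_eq_right (by linarith)]
        ring
      · rw [abs_of_nonneg (by linarith : 0 ≤ v / 8), abs_of_nonneg (by linarith : 0 ≤ v / 8 - 1 / 16),
          abs_of_nonneg (by linarith : 0 ≤ v / 8 - 1 / 8), abs_of_nonneg (by linarith : 0 ≤ v - 1 / 2),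
          max_eq_left (by linarith)]
        ring

lemma Phi_series {u : ℝ} (hv : |Real.log u| ≤ 7) :
    HasSum (fun n : ℕ => 1 / (n : ℝ) ^ 2 * (Real.cos (2 * π * n * (Real.log u / 8)) -
      2 * Real.cos (2 * π * n * (Real.log u / 8 - 1 / 16)) +
      Real.cos (2 * π * n * (Real.log u / 8 - 1 / 8)))) (π ^ 2 * (1 / 128 - Phi u / 4)) := by
  set v : ℝ := Real.log u with hvd
  rw [abs_le] at hv
  have h0 := cos_series (x := v / 8) (by rw [abs_le]; constructor <;> linarith)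
  have h1 := cos_series (x := v / 8 - 1 / 16) (by rw [abs_le]; constructor <;> linarith)
  have h2 := cos_series (x := v / 8 - 1 / 8) (by rw [abs_le]; constructor <;> linarith)
  have h3 := (h0.sub (h1.mul_left 2)).add h2
  have ht := tent_id v
  have hP : Phi u = max 0 (1 / 2 - |v - 1 / 2|) := rfl
  have e1 : π ^ 2 * (1 / 128 - Phi u / 4) =
      π ^ 2 * ((v / 8) ^ 2 - |v / 8| + 1 / 6) -
        2 * (π ^ 2 * ((v / 8 - 1 / 16) ^ 2 - |v / 8 - 1 / 16| + 1 / 6)) +
      π ^ 2 * ((v / 8 - 1 / 8) ^ 2 - |v / 8 - 1 / 8| + 1 / 6) := by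
    rw [hP, show max 0 (1 / 2 - |v - 1 / 2|) = 4 * (|v / 8| - 2 * |v / 8 - 1 / 16| + |v / 8 - 1 / 8|) by
      rw [ht]; ring]
    ring
  rw [e1]
  refine Eq.mp (congrArg (fun f : ℕ → ℝ => HasSum f _) (funext fun n => ?_)) h3
  ring

/-! ### Separation of the variables -/

lemma sep {X : ℝ} (hX : 0 < X) (I J : Finset ℕ) (E : ℕ → ℕ → ℝ) (α β : ℕ → ℝ) (T : ℝ)
    (hT : ∀ a b : ℕ → ℝ, (∀ m, |a m| ≤ |α m|) → (∀ n, |b n| ≤ |β n|) →
      |∑ m ∈ I, ∑ n ∈ J, a m * b n * E m n| ≤ T)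
    (hI : ∀ m ∈ I, 0 < m) (hJ : ∀ n ∈ J, 0 < n)
    (hv : ∀ m ∈ I, ∀ n ∈ J, |Real.log (((m * n : ℕ) : ℝ) / X)| ≤ 7) :
    |∑ m ∈ I, ∑ n ∈ J, α m * β n * Phi (((m * n : ℕ) : ℝ) / X) * E m n| ≤ 6 * T := by
  set A1 : ℕ → ℕ → ℝ := fun k m => Real.cos (2 * π * k * (Real.log m / 8)) with hA1
  set A2 : ℕ → ℕ → ℝ := fun k m => Real.sin (2 * π * k * (Real.log m / 8)) with hA2
  set w : ℕ → ℝ := fun n => Real.log n - Real.log X with hw
  set B1 : ℕ → ℕ → ℝ := fun k n => Real.cos (2 * π * k * (w n / 8)) -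
    2 * Real.cos (2 * π * k * (w n / 8 - 1 / 16)) + Real.cos (2 * π * k * (w n / 8 - 1 / 8)) with hB1
  set B2 : ℕ → ℕ → ℝ := fun k n => Real.sin (2 * π * k * (w n / 8)) -
    2 * Real.sin (2 * π * k * (w n / 8 - 1 / 16)) + Real.sin (2 * π * k * (w n / 8 - 1 / 8)) with hB2
  have hA1b : ∀ k m, |A1 k m| ≤ 1 := fun k m => Real.abs_cos_le_one _
  have hA2b : ∀ k m, |A2 k m| ≤ 1 := fun k m => Real.abs_sin_le_one _
  have hB1b : ∀ k n, |B1 k n / 4| ≤ 1 := by
    intro k n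
    have h1 := abs_le.1 (Real.abs_cos_le_one (2 * π * k * (w n / 8)))
    have h2 := abs_le.1 (Real.abs_cos_le_one (2 * π * k * (w n / 8 - 1 / 16)))
    have h3 := abs_le.1 (Real.abs_cos_le_one (2 * π * k * (w n / 8 - 1 / 8)))
    rw [abs_le]
    constructor <;> simp only [hB1] <;> linarith [h1.1, h1.2, h2.1, h2.2, h3.1, h3.2]
  have hB2b : ∀ k n, |B2 k n / 4| ≤ 1 := by
    intro k n
    have h1 := abs_le.1 (Real.abs_sin_le_one (2 * π * k * (w n / 8)))
    have h2 := abs_le.1 (Real.abs_sin_le_one (2 * π * k * (w n / 8 - 1 / 16)))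
    have h3 := abs_le.1 (Real.abs_sin_le_one (2 * π * k * (w n / 8 - 1 / 8)))
    rw [abs_le]
    constructor <;> simp only [hB2] <;> linarith [h1.1, h1.2, h2.1, h2.2, h3.1, h3.2]
  have hT0 : 0 ≤ T := (abs_nonneg _).trans (hT α β (fun _ => le_rfl) (fun _ => le_rfl))
  have key : ∀ m ∈ I, ∀ n ∈ J, HasSum (fun k : ℕ => α m * β n * E m n *
      (1 / (k : ℝ) ^ 2 * (A1 k m * B1 k n - A2 k m * B2 k n)))
      (α m * β n * E m n * (π ^ 2 * (1 / 128 - Phi (((m * n : ℕ) : ℝ) / X) / 4))) := by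
    intro m hm n hn
    have h := (Phi_series (hv m hm n hn)).mul_left (α m * β n * E m n)
    have hm0 : (m : ℝ) ≠ 0 := by exact_mod_cast (hI m hm).ne'
    have hn0 : (n : ℝ) ≠ 0 := by exact_mod_cast (hJ n hn).ne'
    have e1 : Real.log (((m * n : ℕ) : ℝ) / X) = Real.log m + w n := by
      rw [Nat.cast_mul, Real.log_div (mul_ne_zero hm0 hn0) hX.ne', Real.log_mul hm0 hn0, hw]
      ring
    rw [e1] at h
    have e2 : ∀ (k : ℕ) (t : ℝ), Real.cos (2 * π * k * ((Real.log m + w n) / 8 - t)) =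
        A1 k m * Real.cos (2 * π * k * (w n / 8 - t)) -
          A2 k m * Real.sin (2 * π * k * (w n / 8 - t)) := by
      intro k t
      have : 2 * π * k * ((Real.log m + w n) / 8 - t) =
        2 * π * k * (Real.log m / 8) + 2 * π * k * (w n / 8 - t) := by ring
      rw [this, Real.cos_add]
    have e3 : ∀ (k : ℕ), Real.cos (2 * π * k * ((Real.log m + w n) / 8)) =
        A1 k m * Real.cos (2 * π * k * (w n / 8)) -
          A2 k m * Real.sin (2 * π * k * (w n / 8)) := by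
      intro k
      have := e2 k 0
      simpa only [sub_zero] using this
    refine Eq.mp (congrArg (fun f : ℕ → ℝ => HasSum f _) (funext fun k => ?_)) h
    rw [e2, e2, e3]
    simp only [hB1, hB2]
    ring
  have hsum := hasSum_sum fun m hm => hasSum_sum fun n hn => key m hm n hn
  have hz : HasSum (fun k : ℕ => 8 * T * (1 / (k : ℝ) ^ 2)) (8 * T * (π ^ 2 / 6)) :=
    hasSum_zeta_two.mul_left _
  have hb : ∀ k : ℕ, ‖∑ m ∈ I, ∑ n ∈ J, α m * β n * E m n *
      (1 / (k : ℝ) ^ 2 * (A1 k m * B1 k n - A2 k m * B2 k n))‖ ≤ 8 * T * (1 / (k : ℝ) ^ 2) := by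
    intro k
    have h1 := hT (fun m => α m * A1 k m) (fun n => β n * (B1 k n / 4)) (fun m => by
        rw [abs_mul]
        exact mul_le_of_le_one_right (abs_nonneg _) (hA1b k m)) (fun n => by
        rw [abs_mul]
        exact mul_le_of_le_one_right (abs_nonneg _) (hB1b k n))
    have h2 := hT (fun m => α m * A2 k m) (fun n => β n * (B2 k n / 4)) (fun m => by
        rw [abs_mul]
        exact mul_le_of_le_one_right (abs_nonneg _) (hA2b k m)) (fun n => by
        rw [abs_mul]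
        exact mul_le_of_le_one_right (abs_nonneg _) (hB2b k n))
    have e : ∑ m ∈ I, ∑ n ∈ J, α m * β n * E m n *
        (1 / (k : ℝ) ^ 2 * (A1 k m * B1 k n - A2 k m * B2 k n)) =
        1 / (k : ℝ) ^ 2 * (4 * (∑ m ∈ I, ∑ n ∈ J, (α m * A1 k m) * (β n * (B1 k n / 4)) * E m n) -
          4 * (∑ m ∈ I, ∑ n ∈ J, (α m * A2 k m) * (β n * (B2 k n / 4)) * E m n)) := by
      rw [mul_sum, mul_sum, ← sum_sub_distrib, mul_sum]
      refine sum_congr rfl fun m _ => ?_
      rw [mul_sum, mul_sum, ← sum_sub_distrib, mul_sum]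
      refine sum_congr rfl fun n _ => ?_
      ring
    rw [e, Real.norm_eq_abs, abs_mul, abs_of_nonneg (by positivity : (0 : ℝ) ≤ 1 / (k : ℝ) ^ 2),
      mul_comm]
    refine mul_le_mul_of_nonneg_right ?_ (by positivity)
    rw [abs_le] at h1 h2 ⊢
    constructor <;> linarith [h1.1, h1.2, h2.1, h2.2]
  have hfin := hsum.norm_le_of_bounded hz hb
  have e4 : ∑ m ∈ I, ∑ n ∈ J, α m * β n * E m n *
      (π ^ 2 * (1 / 128 - Phi (((m * n : ℕ) : ℝ) / X) / 4)) =
      π ^ 2 * (1 / 128 * (∑ m ∈ I, ∑ n ∈ J, α m * β n * E m n) -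
        (∑ m ∈ I, ∑ n ∈ J, α m * β n * Phi (((m * n : ℕ) : ℝ) / X) * E m n) / 4) := by
    rw [mul_sum, sum_div, ← sum_sub_distrib, mul_sum]
    refine sum_congr rfl fun m _ => ?_
    rw [mul_sum, sum_div, ← sum_sub_distrib, mul_sum]
    refine sum_congr rfl fun n _ => ?_
    ring
  have hπ : 0 < π ^ 2 := by positivity
  rw [e4, Real.norm_eq_abs, abs_mul, abs_of_pos hπ] at hfin
  have h5 : |1 / 128 * (∑ m ∈ I, ∑ n ∈ J, α m * β n * E m n) -
        (∑ m ∈ I, ∑ n ∈ J, α m * β n * Phi (((m * n : ℕ) : ℝ) / X) * E m n) / 4| ≤ 4 / 3 * T := by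
    have : π ^ 2 * |1 / 128 * (∑ m ∈ I, ∑ n ∈ J, α m * β n * E m n) -
        (∑ m ∈ I, ∑ n ∈ J, α m * β n * Phi (((m * n : ℕ) : ℝ) / X) * E m n) / 4| ≤
        π ^ 2 * (4 / 3 * T) := by linarith
    exact le_of_mul_le_mul_left this hπ
  have h6 := hT α β (fun _ => le_rfl) (fun _ => le_rfl)
  rw [abs_le] at h5 h6 ⊢
  constructor <;> linarith [h5.1, h5.2, h6.1, h6.2]

/-! ### Dyadic blocks -/

lemma dyadic (a : ℕ) (F : ℕ → ℝ) (I : ℕ) : ∑ m ∈ Ioc a (2 ^ I * a), F m =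
    ∑ i ∈ range I, ∑ m ∈ Ioc (2 ^ i * a) (2 * (2 ^ i * a)), F m := by
  induction I with
  | zero => simp
  | succ I ih =>
    rw [sum_range_succ, ← ih]
    have h1 : a ≤ 2 ^ I * a := Nat.le_mul_of_pos_left _ (by positivity)
    have h2 : 2 ^ I * a ≤ 2 ^ (I + 1) * a := Nat.mul_le_mul_right _ (Nat.pow_le_pow_right (by norm_num) (by omega))
    have h3 : 2 * (2 ^ I * a) = 2 ^ (I + 1) * a := by ring
    rw [h3, sum_Ioc_consecutive _ h1 h2]

lemma Phi_low {u : ℝ} (hu0 : 0 < u) (hu : u ≤ 1) : Phi u = 0 := by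
  unfold Pool.Agent.H378R2.Phi
  have h1 : Real.log u ≤ 0 := Real.log_nonpos hu0.le hu
  rw [abs_of_nonpos (by linarith)]
  exact max_eq_left (by linarith)

lemma Phi_high {u : ℝ} (hu : 3 ≤ u) : Phi u = 0 := by
  unfold Pool.Agent.H378R2.Phi
  have h1 : 1 ≤ Real.log u := by
    rw [Real.le_log_iff_exp_le (by linarith)]
    have := Real.exp_one_lt_d9
    linarith
  rw [abs_of_nonneg (by linarith)]
  exact max_eq_left (by linarith)

lemma block_log {X : ℝ} (hX : 0 < X) {M N m n : ℕ} (h1 : X / 16 ≤ (M : ℝ) * N)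
    (h2 : (M : ℝ) * N ≤ 16 * X) (hm : m ∈ Ioc M (2 * M)) (hn : n ∈ Ioc N (2 * N)) :
    |Real.log (((m * n : ℕ) : ℝ) / X)| ≤ 7 := by
  rw [mem_Ioc] at hm hn
  have a1 : (M : ℝ) ≤ m := by exact_mod_cast hm.1.le
  have a2 : (m : ℝ) ≤ 2 * M := by exact_mod_cast hm.2
  have b1 : (N : ℝ) ≤ n := by exact_mod_cast hn.1.le
  have b2 : (n : ℝ) ≤ 2 * N := by exact_mod_cast hn.2
  have hM : (0 : ℝ) ≤ M := Nat.cast_nonneg _
  have hN : (0 : ℝ) ≤ N := Nat.cast_nonneg _
  have c1 : X / 16 ≤ ((m * n : ℕ) : ℝ) := by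
    rw [Nat.cast_mul]
    exact h1.trans (mul_le_mul a1 b1 hN (hM.trans a1))
  have c2 : ((m * n : ℕ) : ℝ) ≤ 64 * X := by
    rw [Nat.cast_mul]
    have := mul_le_mul a2 b2 (hN.trans b1) (by positivity)
    linarith
  have d1 : 1 / 16 ≤ ((m * n : ℕ) : ℝ) / X := by
    rw [le_div_iff₀ hX]
    linarith
  have d2 : ((m * n : ℕ) : ℝ) / X ≤ 64 := by
    rw [div_le_iff₀ hX]
    exact c2
  have hl2 := Real.log_two_lt_d9
  have e1 : Real.log (1 / 16) = -(4 * Real.log 2) := by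
    rw [one_div, Real.log_inv, show (16 : ℝ) = 2 ^ 4 by norm_num, Real.log_pow]
    norm_num
  have e2 : Real.log 64 = 6 * Real.log 2 := by
    rw [show (64 : ℝ) = 2 ^ 6 by norm_num, Real.log_pow]
    norm_num
  have f1 := Real.log_le_log (by norm_num) d1
  have f2 := Real.log_le_log (by linarith) d2
  rw [abs_le]
  constructor <;> linarith

/-- BX -/
theorem bx (hT : S_TII) : S_BX := by
  intro K h W b hyp δ hδ
  obtain ⟨ε, hε, H⟩ := hT K h W b hyp δ hδ
  refine ⟨ε, hε, fun A => ?_⟩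
  obtain ⟨B0, HB⟩ := H (A + 3)
  refine ⟨B0, fun B hB => ?_⟩
  have e1 : ∀ᶠ X : ℝ in atTop, (2 : ℝ) ≤ X ^ (1 / 3 : ℝ) :=
    (tendsto_rpow_atTop (by norm_num)).eventually_ge_atTop 2
  have e2 : ∀ᶠ X : ℝ in atTop, (96 : ℝ) ≤ Real.log X := Real.tendsto_log_atTop.eventually_ge_atTop 96
  filter_upwards [HB B hB, e1, e2, eventually_ge_atTop 3] with X HX hX1 hX2 hX3
  intro Q hQ hG S hS c hc α β hα hβ
  have hX0 : 0 < X := by linarith
  have hL : 0 < Real.log X := by linarith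
  obtain ⟨M0, hM0⟩ : ∃ M0, M0 = ⌊X ^ (1 / 3 : ℝ)⌋₊ := ⟨_, rfl⟩
  obtain ⟨n3, hn3⟩ : ∃ n3, n3 = ⌊3 * X⌋₊ := ⟨_, rfl⟩
  rw [← hM0, ← hn3]
  have hM0a : X ^ (1 / 3 : ℝ) / 16 ≤ M0 := by
    have := Nat.lt_floor_add_one (X ^ (1 / 3 : ℝ))
    rw [← hM0] at this
    linarith
  have hM01 : 1 ≤ M0 := by
    rw [hM0]
    exact Nat.le_floor (by norm_num; linarith)
  -- the number of blocks
  obtain ⟨I, hI⟩ : ∃ I, I = Nat.log 2 n3 + 1 := ⟨_, rfl⟩
  have hI1 : n3 ≤ 2 ^ I * M0 := by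
    have h1 : n3 < 2 ^ I := by rw [hI]; exact Nat.lt_pow_succ_log_self (by norm_num) _
    exact h1.le.trans (Nat.le_mul_of_pos_right _ hM01)
  have hn30 : n3 ≠ 0 := by
    rw [hn3]
    exact (Nat.floor_pos.2 (by linarith)).ne'
  have hI2 : (I : ℝ) ≤ 4 * Real.log X := by
    have h1 : (2 : ℝ) ^ (Nat.log 2 n3) ≤ n3 := by exact_mod_cast Nat.pow_log_le_self 2 hn30
    have h2 : (n3 : ℝ) ≤ X ^ 2 := by
      have h3 : (n3 : ℝ) ≤ 3 * X := by rw [hn3]; exact Nat.floor_le (by positivity)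
      nlinarith
    have h3 := Real.log_le_log (by positivity) (h1.trans h2)
    rw [Real.log_pow, Real.log_pow] at h3
    have h4 := Real.log_two_gt_d9
    push_cast at h3
    have h5 : (Nat.log 2 n3 : ℝ) * 0.69 ≤ Nat.log 2 n3 * Real.log 2 :=
      mul_le_mul_of_nonneg_left (by linarith) (Nat.cast_nonneg _)
    rw [hI]
    push_cast
    linarith
  obtain ⟨T, hTd⟩ : ∃ T, T = X / (Real.log X) ^ (A + 3) := ⟨_, rfl⟩
  have hT0 : 0 ≤ T := by rw [hTd]; positivity
  -- the coefficients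
  obtain ⟨α', hα'⟩ : ∃ α' : ℕ → ℝ, α' = fun m => if m ≤ n3 then α m else 0 := ⟨_, rfl⟩
  obtain ⟨β', hβ'⟩ : ∃ β' : ℕ → ℝ, β' = fun m => if m ≤ n3 then β m else 0 := ⟨_, rfl⟩
  have hα'b : ∀ m, |α' m| ≤ tau m * Real.log X := by
    intro m
    rw [hα']
    by_cases hm : m ≤ n3
    · simp only [if_pos hm]; exact hα m
    · simp only [if_neg hm, abs_zero]
      unfold tau
      positivity
  have hβ'b : ∀ m, |β' m| ≤ tau m * Real.log X := by
    intro m
    rw [hβ']
    by_cases hm : m ≤ n3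
    · simp only [if_pos hm]; exact hβ m
    · simp only [if_neg hm, abs_zero]
      unfold tau
      positivity
  obtain ⟨E, hE⟩ : ∃ E : ℕ → ℕ → ℝ, E = fun m n => ∑ q ∈ S, c q * dl h W b (D0 X B) q (m * n) :=
    ⟨_, rfl⟩
  have hswap : ∀ (I J : Finset ℕ) (a b' : ℕ → ℝ), ∑ m ∈ I, ∑ n ∈ J, a m * b' n * E m n =
      ∑ q ∈ S, c q * ∑ m ∈ I, ∑ n ∈ J, a m * b' n * dl h W b (D0 X B) q (m * n) := by
    intro I J a b'
    simp only [hE, mul_sum]
    symm
    rw [sum_comm]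
    refine sum_congr rfl fun m _ => ?_
    rw [sum_comm]
    refine sum_congr rfl fun n _ => sum_congr rfl fun q _ => ?_
    ring
  -- one block
  have hblock : ∀ M N : ℕ, M0 ≤ M → M0 ≤ N →
      |∑ m ∈ Ioc M (2 * M), ∑ n ∈ Ioc N (2 * N),
        α' m * β' n * Phi (((m * n : ℕ) : ℝ) / X) * E m n| ≤ 6 * T := by
    intro M N hM hN
    have hMr : X ^ (1 / 3 : ℝ) / 16 ≤ M := hM0a.trans (by exact_mod_cast hM)
    have hNr : X ^ (1 / 3 : ℝ) / 16 ≤ N := hM0a.trans (by exact_mod_cast hN)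
    by_cases hc1 : X / 16 ≤ (M : ℝ) * N
    · by_cases hc2 : (M : ℝ) * N ≤ 16 * X
      · refine sep hX0 _ _ E α' β' T ?_ (fun m hm => by rw [mem_Ioc] at hm; omega)
          (fun n hn => by rw [mem_Ioc] at hn; omega)
          (fun m hm n hn => block_log hX0 hc1 hc2 hm hn)
        intro a b' ha hb'
        have ha2 : ∀ m, |a m| ≤ tau m * Real.log X := fun m => (ha m).trans (hα'b m)
        have hb2 : ∀ m, |b' m| ≤ tau m * Real.log X := fun m => (hb' m).trans (hβ'b m)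
        rw [hTd]
        by_cases hcN : (N : ℝ) ≤ 16 * X ^ (1 / 2 : ℝ)
        · obtain ⟨g, hg⟩ := hG M N hc1 hc2 hNr hcN
          rw [hswap]
          exact HX M N Q g hQ hg S hS c hc a b' (fun m _ => ha2 m) (fun n _ => hb2 n)
        · have hcM : (M : ℝ) ≤ 16 * X ^ (1 / 2 : ℝ) := by
            rw [not_le] at hcN
            have hx : X ^ (1 / 2 : ℝ) * X ^ (1 / 2 : ℝ) = X := by
              rw [← Real.rpow_add hX0]
              norm_num
            have hxp : 0 < X ^ (1 / 2 : ℝ) := by positivity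
            by_contra hcon
            rw [not_le] at hcon
            nlinarith [mul_pos hxp hxp]
          obtain ⟨g, hg⟩ := hG N M (by rw [mul_comm]; exact hc1) (by rw [mul_comm]; exact hc2) hMr hcM
          have h1 := HX N M Q g hQ hg S hS c hc b' a (fun m _ => hb2 m) (fun n _ => ha2 n)
          rw [← hswap, sum_comm] at h1
          refine le_trans (le_of_eq ?_) h1
          congr 1
          refine sum_congr rfl fun m _ => sum_congr rfl fun n _ => ?_
          have : E n m = E m n := by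
            simp only [hE]
            refine sum_congr rfl fun q _ => ?_
            rw [mul_comm n m]
          rw [this]
          ring
      · have : ∑ m ∈ Ioc M (2 * M), ∑ n ∈ Ioc N (2 * N),
            α' m * β' n * Phi (((m * n : ℕ) : ℝ) / X) * E m n = 0 := by
          refine sum_eq_zero fun m hm => sum_eq_zero fun n hn => ?_
          rw [mem_Ioc] at hm hn
          rw [Phi_high, mul_zero, zero_mul]
          rw [le_div_iff₀ hX0, Nat.cast_mul]
          rw [not_le] at hc2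
          have a1 : (M : ℝ) ≤ m := by exact_mod_cast hm.1.le
          have b1 : (N : ℝ) ≤ n := by exact_mod_cast hn.1.le
          have := mul_le_mul a1 b1 (Nat.cast_nonneg _) ((Nat.cast_nonneg M).trans a1)
          linarith
        rw [this, abs_zero]
        positivity
    · have : ∑ m ∈ Ioc M (2 * M), ∑ n ∈ Ioc N (2 * N),
          α' m * β' n * Phi (((m * n : ℕ) : ℝ) / X) * E m n = 0 := by
        refine sum_eq_zero fun m hm => sum_eq_zero fun n hn => ?_
        rw [mem_Ioc] at hm hn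
        have hm0 : 0 < m := by omega
        have hn0 : 0 < n := by omega
        rw [Phi_low (by positivity), mul_zero, zero_mul]
        rw [div_le_iff₀ hX0, Nat.cast_mul]
        rw [not_le] at hc1
        have a1 : (m : ℝ) ≤ 2 * M := by exact_mod_cast hm.2
        have b1 : (n : ℝ) ≤ 2 * N := by exact_mod_cast hn.2
        have := mul_le_mul a1 b1 (Nat.cast_nonneg _) (by positivity)
        linarith
      rw [this, abs_zero]
      positivity
  -- decomposition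
  have hdec : ∑ q ∈ S, c q * ∑ m ∈ Ioc M0 n3, ∑ n ∈ Ioc M0 n3,
      α m * β n * Phi (((m * n : ℕ) : ℝ) / X) * dl h W b (D0 X B) q (m * n) =
      ∑ i ∈ range I, ∑ j ∈ range I, ∑ m ∈ Ioc (2 ^ i * M0) (2 * (2 ^ i * M0)),
        ∑ n ∈ Ioc (2 ^ j * M0) (2 * (2 ^ j * M0)),
          α' m * β' n * Phi (((m * n : ℕ) : ℝ) / X) * E m n := by
    have h1 : ∑ q ∈ S, c q * ∑ m ∈ Ioc M0 n3, ∑ n ∈ Ioc M0 n3,
        α m * β n * Phi (((m * n : ℕ) : ℝ) / X) * dl h W b (D0 X B) q (m * n) =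
        ∑ m ∈ Ioc M0 n3, ∑ n ∈ Ioc M0 n3,
          α m * β n * Phi (((m * n : ℕ) : ℝ) / X) * E m n := by
      simp only [hE, mul_sum]
      rw [sum_comm]
      refine sum_congr rfl fun m _ => ?_
      rw [sum_comm]
      refine sum_congr rfl fun n _ => sum_congr rfl fun q _ => ?_
      ring
    have hsub : Ioc M0 n3 ⊆ Ioc M0 (2 ^ I * M0) := Ioc_subset_Ioc_right hI1
    have h2 : ∑ m ∈ Ioc M0 n3, ∑ n ∈ Ioc M0 n3,
          α m * β n * Phi (((m * n : ℕ) : ℝ) / X) * E m n =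
        ∑ m ∈ Ioc M0 (2 ^ I * M0), ∑ n ∈ Ioc M0 (2 ^ I * M0),
          α' m * β' n * Phi (((m * n : ℕ) : ℝ) / X) * E m n := by
      rw [← sum_subset hsub]
      · refine sum_congr rfl fun m hm => ?_
        rw [← sum_subset hsub]
        · refine sum_congr rfl fun n hn => ?_
          rw [mem_Ioc] at hm hn
          rw [hα', hβ']
          simp only [if_pos hm.2, if_pos hn.2]
        · intro n hn hn2
          rw [mem_Ioc] at hn hn2
          have : ¬ n ≤ n3 := fun h => hn2 ⟨hn.1, h⟩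
          rw [hβ']
          simp only [if_neg this, mul_zero, zero_mul]
      · intro m hm hm2
        rw [mem_Ioc] at hm hm2
        have : ¬ m ≤ n3 := fun h => hm2 ⟨hm.1, h⟩
        refine sum_eq_zero fun n _ => ?_
        rw [hα']
        simp only [if_neg this, zero_mul]
    rw [h1, h2, dyadic]
    refine sum_congr rfl fun i _ => ?_
    rw [sum_congr rfl fun m _ => dyadic M0 (fun n => α' m * β' n * Phi (((m * n : ℕ) : ℝ) / X) * E m n) I,
      sum_comm]
  have hmul : ∀ m n : ℕ, (((m * n : ℕ) : ℝ)) = ((m * n : ℕ) : ℝ) := fun _ _ => rfl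
  rw [hdec]
  calc |∑ i ∈ range I, ∑ j ∈ range I, ∑ m ∈ Ioc (2 ^ i * M0) (2 * (2 ^ i * M0)),
        ∑ n ∈ Ioc (2 ^ j * M0) (2 * (2 ^ j * M0)),
          α' m * β' n * Phi (((m * n : ℕ) : ℝ) / X) * E m n|
      ≤ ∑ i ∈ range I, ∑ j ∈ range I, 6 * T := by
        refine (abs_sum_le_sum_abs _ _).trans (sum_le_sum fun i _ => ?_)
        refine (abs_sum_le_sum_abs _ _).trans (sum_le_sum fun j _ => ?_)
        exact hblock _ _ (Nat.le_mul_of_pos_left _ (by positivity))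
          (Nat.le_mul_of_pos_left _ (by positivity))
    _ = (I : ℝ) ^ 2 * (6 * T) := by
        rw [sum_const, sum_const, card_range, nsmul_eq_mul, nsmul_eq_mul]
        ring
    _ ≤ (4 * Real.log X) ^ 2 * (6 * T) :=
        mul_le_mul_of_nonneg_right (pow_le_pow_left₀ (Nat.cast_nonneg _) hI2 2) (by positivity)
    _ = 96 / Real.log X * (X / (Real.log X) ^ A) := by
        rw [hTd, pow_add]
        field_simp
        ring
    _ ≤ 1 * (X / (Real.log X) ^ A) := by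
        refine mul_le_mul_of_nonneg_right ?_ (by positivity)
        rw [div_le_one hL]
        exact hX2
    _ = X / (Real.log X) ^ A := one_mul _

end Pool.Agent.Y826.ZG.Y674
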